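import Mathlib
import Pool.Agent.H502.JRBFinal

/-!
# Operator identities for Rota-Baxter operators of weight `0` on `A⁺`

For `a = N 1` and `V i j y = a^i y a^j + a^j y a^i` we prove
`V i j (N y) = N (V i j y) + N (i V (i-1) j (N y) + j V i (j-1) (N y))`.
-/

namespace JRB2

open JRB

section ident

set_option linter.unusedSectionVars false

variable {F : Type*} [Field F] [CharZero F] {A : Type*} [Ring A] [Algebra F A]

/-- multiplication by `a^k` in `A⁺`, as an operator -/
noncomputable def Lop (a : A) (k : ℕ) : A →ₗ[F] A where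
  toFun y := jmul F (a ^ k) y
  map_add' _ _ := jmul_add _ _ _
  map_smul' _ _ := jmul_smul _ _ _

theorem Lop_apply (a : A) (k : ℕ) (y : A) : (Lop a k : A →ₗ[F] A) y = jmul F (a ^ k) y := rfl

/-- `y ↦ a^i y a^j + a^j y a^i` -/
noncomputable def Vop (a : A) (i j : ℕ) : A →ₗ[F] A where
  toFun y := a ^ i * y * a ^ j + a ^ j * y * a ^ i
  map_add' x y := by noncomm_ring
  map_smul' c x := by
    simp only [mul_smul_comm, smul_mul_assoc, RingHom.id_apply, smul_add]

theorem Vop_apply (a : A) (i j : ℕ) (y : A) :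
    (Vop a i j : A →ₗ[F] A) y = a ^ i * y * a ^ j + a ^ j * y * a ^ i := rfl

theorem Vop_symm (a : A) (i j : ℕ) : (Vop a i j : A →ₗ[F] A) = Vop a j i := by
  ext y; rw [Vop_apply, Vop_apply, add_comm]

theorem Vop_eq (a : A) (i j : ℕ) :
    (Vop a i j : A →ₗ[F] A) = (2 : F) • (Lop a i * Lop a j + Lop a j * Lop a i - Lop a (i + j)) := by
  ext y
  simp only [Vop_apply, LinearMap.smul_apply, LinearMap.sub_apply, LinearMap.add_apply,
    Module.End.mul_apply, Lop_apply, jmul]
  have e1 : a ^ i * (a ^ j * y) = a ^ (i + j) * y := by rw [← mul_assoc, ← pow_add]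
  have e2 : a ^ j * (a ^ i * y) = a ^ (i + j) * y := by rw [← mul_assoc, ← pow_add, add_comm]
  have e3 : y * a ^ j * a ^ i = y * a ^ (i + j) := by rw [mul_assoc, ← pow_add, add_comm]
  have e4 : y * a ^ i * a ^ j = y * a ^ (i + j) := by rw [mul_assoc, ← pow_add]
  have e5 : a ^ i * (y * a ^ j) = a ^ i * y * a ^ j := by rw [mul_assoc]
  have e6 : a ^ j * (y * a ^ i) = a ^ j * y * a ^ i := by rw [mul_assoc]
  simp only [mul_add, add_mul, mul_smul_comm, smul_mul_assoc, e1, e2, e3, e4, e5, e6]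
  module

variable (N : A →ₗ[F] A) (hN : IsRB F (jmul F) N)

include hN in
theorem Lop_rel (k : ℕ) : (Lop (N 1) k : A →ₗ[F] A) * N =
    N * Lop (N 1) k + (k : F) • (N * Lop (N 1) (k - 1) * N) := by
  cases k with
  | zero =>
    ext y
    simp only [Module.End.mul_apply, LinearMap.add_apply, Lop_apply, pow_zero, one_jmul, Nat.cast_zero, zero_smul,
      add_zero]
  | succ k =>
    ext y
    have := N_pow_rel N hN k y
    simp only [Module.End.mul_apply, LinearMap.add_apply, Lop_apply, LinearMap.smul_apply, Nat.add_sub_cancel]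
    exact this

include hN in
theorem LL_rel (i j : ℕ) : (Lop (N 1) i * Lop (N 1) j : Module.End F A) * N =
    N * (Lop (N 1) i * Lop (N 1) j) + (i : F) • (N * (Lop (N 1) (i - 1) * Lop (N 1) j) * N) +
      (j : F) • (N * (Lop (N 1) i * Lop (N 1) (j - 1)) * N) := by
  have hi := Lop_rel N hN i
  have hj := Lop_rel N hN j
  have hj' : N * Lop (N 1) j = (Lop (N 1) j : Module.End F A) * N - (j : F) • (N * Lop (N 1) (j - 1) * N) := by
    rw [hj]; abel
  calc (Lop (N 1) i * Lop (N 1) j : Module.End F A) * N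
      = Lop (N 1) i * (N * Lop (N 1) j + (j : F) • (N * Lop (N 1) (j - 1) * N)) := by rw [← hj, mul_assoc]
    _ = (Lop (N 1) i * N) * Lop (N 1) j + (j : F) • ((Lop (N 1) i * N) * Lop (N 1) (j - 1) * N) := by
        rw [mul_add, mul_smul_comm]; simp only [mul_assoc]
    _ = N * (Lop (N 1) i * Lop (N 1) j) + (i : F) • (N * Lop (N 1) (i - 1) * (N * Lop (N 1) j)) +
        (j : F) • (N * (Lop (N 1) i * Lop (N 1) (j - 1)) * N) +
        ((j : F) * (i : F)) • (N * Lop (N 1) (i - 1) * (N * Lop (N 1) (j - 1) * N)) := by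
        rw [hi]
        simp only [add_mul, smul_mul_assoc, smul_add, smul_smul, mul_assoc]
        abel
    _ = _ := by
        rw [hj', mul_sub, mul_smul_comm, smul_sub, smul_smul, mul_comm (i : F) (j : F)]
        simp only [mul_assoc]
        abel

include hN in
theorem V_rel (i j : ℕ) : (Vop (N 1) i j : Module.End F A) * N =
    N * Vop (N 1) i j + (i : F) • (N * Vop (N 1) (i - 1) j * N) + (j : F) • (N * Vop (N 1) i (j - 1) * N) := by
  rw [Vop_eq, Vop_eq, Vop_eq]
  have h1 := LL_rel N hN i j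
  have h2 := LL_rel N hN j i
  have h3 := Lop_rel N hN (i + j)
  have e1 : (i : F) • (N * Lop (N 1) (i - 1 + j) * N : Module.End F A) =
      (i : F) • (N * Lop (N 1) (i + j - 1) * N) := by
    rcases Nat.eq_zero_or_pos i with h | h
    · subst h; simp
    · have : i - 1 + j = i + j - 1 := by omega
      rw [this]
  have e2 : (j : F) • (N * Lop (N 1) (i + (j - 1)) * N : Module.End F A) =
      (j : F) • (N * Lop (N 1) (i + j - 1) * N) := by
    rcases Nat.eq_zero_or_pos j with h | h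
    · subst h; simp
    · have : i + (j - 1) = i + j - 1 := by omega
      rw [this]
  have h4 : (((i + j : ℕ) : F)) • (N * Lop (N 1) (i + j - 1) * N : Module.End F A) =
      (i : F) • (N * Lop (N 1) (i - 1 + j) * N) + (j : F) • (N * Lop (N 1) (i + (j - 1)) * N) := by
    rw [e1, e2, Nat.cast_add, add_smul]
  rw [h4] at h3
  rw [smul_mul_assoc, sub_mul, add_mul, h1, h2, h3]
  simp only [mul_smul_comm, smul_mul_assoc, mul_sub, mul_add, sub_mul, add_mul, smul_sub, smul_add, smul_smul]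
  have c1 : (i : F) * 2 = 2 * i := mul_comm _ _
  have c2 : (j : F) * 2 = 2 * j := mul_comm _ _
  rw [c1, c2]
  abel

include hN in
theorem V_rel_apply (i j : ℕ) (y : A) : (N 1) ^ i * (N y) * (N 1) ^ j + (N 1) ^ j * (N y) * (N 1) ^ i =
    N ((N 1) ^ i * y * (N 1) ^ j + (N 1) ^ j * y * (N 1) ^ i) +
    (i : F) • N ((N 1) ^ (i - 1) * (N y) * (N 1) ^ j + (N 1) ^ j * (N y) * (N 1) ^ (i - 1)) +
    (j : F) • N ((N 1) ^ i * (N y) * (N 1) ^ (j - 1) + (N 1) ^ (j - 1) * (N y) * (N 1) ^ i) := by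
  have h := congrArg (fun T : Module.End F A => T y) (V_rel N hN i j)
  simp only [Module.End.mul_apply, LinearMap.add_apply, LinearMap.smul_apply, Vop_apply] at h
  exact h

/-! ### consequences when `a ^ (k+1) = 0`, `k ≥ 2` -/

include hN in
/-- `R (a^k R(y) a^j + a^j R(y) a^k) = 0` for `j + 1 ≤ k`... (`j ≤ k - 1`, here for all `j`
with `j + 1 ≤ k`) -/
theorem rel_top (k j : ℕ) (ha : (N 1) ^ (k + 1) = 0) (y : A) :
    N ((N 1) ^ k * (N y) * (N 1) ^ j + (N 1) ^ j * (N y) * (N 1) ^ k) = 0 := by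
  have h := V_rel_apply N hN (k + 1) j y
  simp only [ha, zero_mul, mul_zero, add_zero, map_zero, zero_add, smul_zero, Nat.add_sub_cancel] at h
  have hk : ((k + 1 : ℕ) : F) ≠ 0 := by exact_mod_cast Nat.succ_ne_zero k
  exact (smul_eq_zero.mp h.symm).resolve_left hk

include hN in
theorem rel_kk (k : ℕ) (ha : (N 1) ^ (k + 1) = 0) (y : A) :
    (N 1) ^ k * (N y) * (N 1) ^ k = N ((N 1) ^ k * y * (N 1) ^ k) := by
  have h := V_rel_apply N hN k k y
  have h1 := rel_top N hN k (k - 1) ha y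
  have h1' : N ((N 1) ^ (k - 1) * (N y) * (N 1) ^ k + (N 1) ^ k * (N y) * (N 1) ^ (k - 1)) = 0 := by
    rw [add_comm]; exact h1
  rw [h1, h1', smul_zero, add_zero, add_zero, ← two_smul F, ← two_smul F, map_smul] at h
  exact smul_right_injective A (two_ne_zero : (2 : F) ≠ 0) h

include hN in
theorem rel_k1 (k : ℕ) (ha : (N 1) ^ (k + 1) = 0) (y : A) :
    (N 1) ^ k * (N y) * (N 1) ^ (k - 1) + (N 1) ^ (k - 1) * (N y) * (N 1) ^ k =
    N ((N 1) ^ k * y * (N 1) ^ (k - 1) + (N 1) ^ (k - 1) * y * (N 1) ^ k) +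
    (2 * k : F) • N ((N 1) ^ (k - 1) * (N y) * (N 1) ^ (k - 1)) := by
  have h := V_rel_apply N hN k (k - 1) y
  rw [rel_top N hN k (k - 1 - 1) ha y, smul_zero, add_zero, ← two_smul F ((N 1) ^ (k - 1) * (N y) * (N 1) ^ (k - 1)),
    map_smul, smul_smul, mul_comm (k : F) 2] at h
  exact h

end ident

end JRB2
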