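import Mathlib
import Pool.Agent.H563R3.Ident

/-!
# The key lemma: `a = R 1` cannot have exactly one Jordan block of maximal size `k+1 ≥ 3` and no
Jordan block of size `k`
-/

namespace JRB2

open JRB Matrix

set_option linter.unusedSectionVars false

section form

variable {F : Type*} [Field F] {n : ℕ} (S : Matrix (Fin n) (Fin n) F)

/-- the bilinear form with Gram matrix `S` -/
def bf (u v : Fin n → F) : F := u ⬝ᵥ S *ᵥ v

/-- the adjoint involution `x ↦ S⁻¹ xᵀ S` of the form with Gram matrix `S` -/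
noncomputable def adjS : Matrix (Fin n) (Fin n) F →ₗ[F] Matrix (Fin n) (Fin n) F where
  toFun x := S⁻¹ * xᵀ * S
  map_add' x y := by rw [Matrix.transpose_add, mul_add, add_mul]
  map_smul' c x := by rw [Matrix.transpose_smul, Matrix.mul_smul, Matrix.smul_mul, RingHom.id_apply]

theorem adjS_apply (x : Matrix (Fin n) (Fin n) F) : adjS S x = S⁻¹ * xᵀ * S := rfl

variable {S}

theorem bf_add_left (u u' v : Fin n → F) : bf S (u + u') v = bf S u v + bf S u' v := by
  unfold bf; rw [add_dotProduct]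

theorem bf_add_right (u v v' : Fin n → F) : bf S u (v + v') = bf S u v + bf S u v' := by
  unfold bf; rw [Matrix.mulVec_add, dotProduct_add]

theorem bf_smul_left (c : F) (u v : Fin n → F) : bf S (c • u) v = c * bf S u v := by
  unfold bf; rw [smul_dotProduct, smul_eq_mul]

theorem bf_smul_right (c : F) (u v : Fin n → F) : bf S u (c • v) = c * bf S u v := by
  unfold bf; rw [Matrix.mulVec_smul, dotProduct_smul, smul_eq_mul]

theorem bf_zero_left (v : Fin n → F) : bf S 0 v = 0 := by unfold bf; rw [zero_dotProduct]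

theorem bf_zero_right (v : Fin n → F) : bf S v 0 = 0 := by unfold bf; rw [Matrix.mulVec_zero, dotProduct_zero]

theorem bf_comm (hS : Sᵀ = S) (u v : Fin n → F) : bf S u v = bf S v u := by
  unfold bf
  rw [Matrix.dotProduct_mulVec, dotProduct_comm, ← Matrix.mulVec_transpose, hS]

theorem dot_eq (hS : Sᵀ = S) (u v : Fin n → F) : (S *ᵥ u) ⬝ᵥ v = bf S u v := by
  rw [bf_comm hS, bf, dotProduct_comm]

theorem bf_nondeg (hu : IsUnit S.det) (z : Fin n → F) (h : ∀ v, bf S v z = 0) : z = 0 := by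
  have h1 : S *ᵥ z = 0 := by
    funext i
    have := h (Pi.single i 1)
    rw [bf, single_dotProduct, one_mul] at this
    exact this
  have h2 : S⁻¹ *ᵥ (S *ᵥ z) = z := by
    rw [Matrix.mulVec_mulVec, Matrix.nonsing_inv_mul _ hu, Matrix.one_mulVec]
  rw [← h2, h1, Matrix.mulVec_zero]

theorem adjS_iff (hu : IsUnit S.det) (x : Matrix (Fin n) (Fin n) F) :
    adjS S x = x ↔ xᵀ * S = S * x := by
  rw [adjS_apply]
  constructor
  · intro h
    rw [mul_assoc] at h
    calc xᵀ * S = (S * S⁻¹) * (xᵀ * S) := by rw [Matrix.mul_nonsing_inv _ hu, one_mul]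
      _ = S * x := by rw [mul_assoc, h]
  · intro h
    rw [mul_assoc, h, ← mul_assoc, Matrix.nonsing_inv_mul _ hu, one_mul]

theorem bf_adj (hu : IsUnit S.det) {x : Matrix (Fin n) (Fin n) F} (hx : adjS S x = x)
    (u v : Fin n → F) : bf S (x *ᵥ u) v = bf S u (x *ᵥ v) := by
  rw [adjS_iff hu] at hx
  unfold bf
  rw [Matrix.mulVec_mulVec, ← hx, dotProduct_comm, ← Matrix.mulVec_mulVec, Matrix.dotProduct_mulVec,
    dotProduct_comm, ← Matrix.mulVec_transpose, dotProduct_comm]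

theorem adjS_mul (hu : IsUnit S.det) (x y : Matrix (Fin n) (Fin n) F) :
    adjS S (x * y) = adjS S y * adjS S x := by
  simp only [adjS_apply, Matrix.transpose_mul]
  calc S⁻¹ * (yᵀ * xᵀ) * S = S⁻¹ * yᵀ * (S * S⁻¹) * xᵀ * S := by
        rw [Matrix.mul_nonsing_inv _ hu]; simp only [mul_one, mul_assoc]
    _ = _ := by simp only [mul_assoc]

theorem adjS_adjS (hS : Sᵀ = S) (hu : IsUnit S.det) (x : Matrix (Fin n) (Fin n) F) :
    adjS S (adjS S x) = x := by
  simp only [adjS_apply, Matrix.transpose_mul, Matrix.transpose_nonsing_inv, hS, Matrix.transpose_transpose]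
  calc S⁻¹ * (S * (x * S⁻¹)) * S = (S⁻¹ * S) * x * (S⁻¹ * S) := by simp only [mul_assoc]
    _ = x := by rw [Matrix.nonsing_inv_mul _ hu, one_mul, mul_one]

theorem adjS_one (hu : IsUnit S.det) : adjS S 1 = 1 := by
  rw [adjS_iff hu]; simp

theorem adjS_pow (hu : IsUnit S.det) {x : Matrix (Fin n) (Fin n) F} (hx : adjS S x = x) (k : ℕ) :
    adjS S (x ^ k) = x ^ k := by
  induction k with
  | zero => rw [pow_zero, adjS_one hu]
  | succ k ih => rw [pow_succ, adjS_mul hu, ih, hx, ← pow_succ', ← pow_succ]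

theorem adjS_vec (hS : Sᵀ = S) (hu : IsUnit S.det) (u : Fin n → F) :
    adjS S (Matrix.vecMulVec u (S *ᵥ u)) = Matrix.vecMulVec u (S *ᵥ u) := by
  rw [adjS_iff hu, Matrix.transpose_vecMulVec, Matrix.vecMulVec_mul, Matrix.mul_vecMulVec,
    ← Matrix.mulVec_transpose, hS]

theorem mat_ext {x y : Matrix (Fin n) (Fin n) F} (h : ∀ v, x *ᵥ v = y *ᵥ v) : x = y := by
  ext i j
  have := congrFun (h (Pi.single j 1)) i
  simpa using this

/-- elementary product -/
theorem vmv_mul (u w u' w' : Fin n → F) (y : Matrix (Fin n) (Fin n) F) :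
    Matrix.vecMulVec u w * y * Matrix.vecMulVec u' w' = (w ⬝ᵥ y *ᵥ u') • Matrix.vecMulVec u w' := by
  rw [mul_assoc, Matrix.mul_vecMulVec, Matrix.vecMulVec_mul_vecMulVec, Matrix.vecMulVec_smul]

theorem vmv_mulVec (u w v : Fin n → F) : Matrix.vecMulVec u w *ᵥ v = (w ⬝ᵥ v) • u := by
  rw [Matrix.vecMulVec_mulVec]; exact op_smul_eq_smul _ _

variable [CharZero F]

/-- **Key lemma.** -/
theorem key_lemma (hS : Sᵀ = S) (hu : IsUnit S.det)
    (N : Matrix (Fin n) (Fin n) F →ₗ[F] Matrix (Fin n) (Fin n) F) (hN : IsRB F (jmul F) N)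
    (hτ : ∀ y, adjS S (N y) = N y) (k : ℕ) (hk : 2 ≤ k) (ha : (N 1) ^ (k + 1) = 0)
    (g : Fin n → F) (hz : (N 1) ^ k *ᵥ g ≠ 0)
    (hspan : ∀ v, ∃ p q : F, (N 1) ^ (k - 1) *ᵥ v = p • ((N 1) ^ (k - 1) *ᵥ g) + q • ((N 1) ^ k *ᵥ g)) :
    False := by
  set a := N 1 with hadef
  set z := a ^ k *ᵥ g with hzdef
  set z' := a ^ (k - 1) *ᵥ g with hz'def
  have haa : adjS S a = a := hτ 1
  have hak : adjS S (a ^ k) = a ^ k := adjS_pow hu haa k
  have hak1 : adjS S (a ^ (k - 1)) = a ^ (k - 1) := adjS_pow hu haa (k - 1)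
  have hkk : k - 1 + 1 = k := by omega
  have e1 : ∀ v, a *ᵥ (a ^ (k - 1) *ᵥ v) = a ^ k *ᵥ v := by
    intro v
    rw [Matrix.mulVec_mulVec, ← pow_succ', hkk]
  have e2 : ∀ v, a *ᵥ (a ^ k *ᵥ v) = 0 := by
    intro v
    rw [Matrix.mulVec_mulVec, ← pow_succ', ha, Matrix.zero_mulVec]
  set c0 := bf S z g with hc0
  have hc0ne : c0 ≠ 0 := by
    intro h0
    apply hz
    apply bf_nondeg hu
    intro v
    obtain ⟨p, q, hv⟩ := hspan v
    have h1 : a ^ k *ᵥ v = p • z := by
      rw [← e1, hv, Matrix.mulVec_add, Matrix.mulVec_smul, Matrix.mulVec_smul, hz'def, e1, hzdef, e2,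
        smul_zero, add_zero]
    have h2 : bf S (a ^ k *ᵥ v) g = bf S v z := by rw [bf_adj hu hak]
    rw [← h2, h1, bf_smul_left, ← hc0, h0, mul_zero]
  set c := bf S z' g / c0 with hc
  set e00 := Matrix.vecMulVec z (S *ᵥ z) with he00
  set e01 := Matrix.vecMulVec z (S *ᵥ z') with he01
  set e10 := Matrix.vecMulVec z' (S *ᵥ z) with he10
  set e11 := Matrix.vecMulVec z' (S *ᵥ z') with he11
  have hk1 : c0 • a ^ k = e00 := by
    apply mat_ext
    intro v
    obtain ⟨p, q, hv⟩ := hspan v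
    have h1 : a ^ k *ᵥ v = p • z := by
      rw [← e1, hv, Matrix.mulVec_add, Matrix.mulVec_smul, Matrix.mulVec_smul, hz'def, e1, hzdef, e2,
        smul_zero, add_zero]
    have h2 : bf S (a ^ k *ᵥ v) g = bf S v z := by rw [bf_adj hu hak]
    rw [h1, bf_smul_left, ← hc0] at h2
    rw [Matrix.smul_mulVec, h1, he00, vmv_mulVec, dot_eq hS, bf_comm hS z v, ← h2, smul_smul, mul_comm]
  have hk2 : c0 • a ^ (k - 1) = e10 + e01 - c • e00 := by
    apply mat_ext
    intro v
    obtain ⟨p, q, hv⟩ := hspan v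
    have h1 : a ^ k *ᵥ v = p • z := by
      rw [← e1, hv, Matrix.mulVec_add, Matrix.mulVec_smul, Matrix.mulVec_smul, hz'def, e1, hzdef, e2,
        smul_zero, add_zero]
    have h2 : bf S (a ^ k *ᵥ v) g = bf S v z := by rw [bf_adj hu hak]
    rw [h1, bf_smul_left, ← hc0] at h2
    have h3 : bf S (a ^ (k - 1) *ᵥ v) g = bf S v z' := by rw [bf_adj hu hak1]
    rw [hv, bf_add_left, bf_smul_left, bf_smul_left, ← hc0] at h3
    have hcc : c * c0 = bf S z' g := by rw [hc]; field_simp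
    rw [Matrix.smul_mulVec, hv, Matrix.sub_mulVec, Matrix.add_mulVec, Matrix.smul_mulVec, he00, he01, he10,
      vmv_mulVec, vmv_mulVec, vmv_mulVec, dot_eq hS, dot_eq hS, bf_comm hS z v, bf_comm hS z' v, ← h2, ← h3,
      ← hcc]
    module
  -- values of N
  have hne : e00 ≠ 0 := by
    rw [he00]
    apply Matrix.vecMulVec_ne_zero hz
    intro h0
    apply hz
    apply bf_nondeg hu
    intro v
    unfold bf
    rw [h0, dotProduct_zero]
  have hkF : ((k : ℕ) : F) ≠ 0 := by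
    have : k ≠ 0 := by omega
    exact_mod_cast this
  have hN0 : N e00 = 0 := by
    rw [← hk1, map_smul, N_pow N hN k, ← hadef, ha, smul_zero, smul_zero]
  have hN1 : N (e10 + e01) = (k : F)⁻¹ • e00 := by
    have h1 : e10 + e01 = c0 • a ^ (k - 1) + c • e00 := by rw [hk2]; abel
    have h2 := N_pow N hN (k - 1)
    rw [hkk, ← hadef] at h2
    rw [h1, map_add, map_smul, map_smul, hN0, smul_zero, add_zero, h2, smul_comm, hk1]
  -- test element
  set x := Matrix.vecMulVec g (S *ᵥ g) with hx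
  set y := N x with hy
  have hyadj : adjS S y = y := hτ x
  set Y1 := bf S z (y *ᵥ z') with hY1
  set Y2 := bf S z' (y *ᵥ z') with hY2
  have hYsym : bf S z' (y *ᵥ z) = Y1 := by
    rw [bf_comm hS, bf_adj hu hyadj]
  have hX0 : bf S z (x *ᵥ z) = c0 * c0 := by
    rw [hx, vmv_mulVec, bf_smul_right, dot_eq hS, bf_comm hS g z]
  set X1 := bf S z (x *ᵥ z') with hX1
  have hXsym : bf S z' (x *ᵥ z) = X1 := by
    rw [bf_comm hS, bf_adj hu (adjS_vec hS hu g)]
  have hY0 : bf S z (y *ᵥ z) = 0 := by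
    have h := rel_kk N hN k ha x
    have h' := congrArg (fun w => (c0 * c0) • w) h
    simp only [← hadef, ← hy] at h'
    have h1 : (c0 * c0) • (a ^ k * y * a ^ k) = (bf S z (y *ᵥ z)) • e00 := by
      have : (c0 * c0) • (a ^ k * y * a ^ k) = (c0 • a ^ k) * y * (c0 • a ^ k) := by
        simp only [smul_mul_assoc, mul_smul_comm, smul_smul]
      rw [this, hk1, he00, vmv_mul, dot_eq hS]
    have h2 : (c0 * c0) • N (a ^ k * x * a ^ k) = 0 := by
      have : (c0 * c0) • (a ^ k * x * a ^ k) = (c0 • a ^ k) * x * (c0 • a ^ k) := by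
        simp only [smul_mul_assoc, mul_smul_comm, smul_smul]
      rw [← map_smul, this, hk1, he00, vmv_mul, dot_eq hS, ← he00, map_smul, hN0, smul_zero]
    rw [h1, h2] at h'
    exact (smul_eq_zero.mp h').resolve_right hne
  have hfin := rel_k1 N hN k ha x
  have hfin' := congrArg (fun w => (c0 * c0) • w) hfin
  simp only [← hadef, ← hy] at hfin'
  have r1 : (c0 * c0) • (a ^ k * y * a ^ (k - 1) + a ^ (k - 1) * y * a ^ k) = (2 * Y1) • e00 := by
    have : (c0 * c0) • (a ^ k * y * a ^ (k - 1) + a ^ (k - 1) * y * a ^ k) =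
        (c0 • a ^ k) * y * (c0 • a ^ (k - 1)) + (c0 • a ^ (k - 1)) * y * (c0 • a ^ k) := by
      simp only [smul_mul_assoc, mul_smul_comm, smul_smul, smul_add]
    rw [this, hk1, hk2]
    simp only [mul_add, add_mul, mul_sub, sub_mul, smul_mul_assoc, mul_smul_comm, he00, he01, he10, vmv_mul,
      dot_eq hS, hY0, hYsym, ← hY1]
    module
  have r2 : (c0 * c0) • N (a ^ k * x * a ^ (k - 1) + a ^ (k - 1) * x * a ^ k) =
      (c0 * c0 * (k : F)⁻¹) • e00 := by
    have : (c0 * c0) • (a ^ k * x * a ^ (k - 1) + a ^ (k - 1) * x * a ^ k) =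
        (c0 • a ^ k) * x * (c0 • a ^ (k - 1)) + (c0 • a ^ (k - 1)) * x * (c0 • a ^ k) := by
      simp only [smul_mul_assoc, mul_smul_comm, smul_smul, smul_add]
    have h3 : (c0 • a ^ k) * x * (c0 • a ^ (k - 1)) + (c0 • a ^ (k - 1)) * x * (c0 • a ^ k) =
        (c0 * c0) • (e10 + e01) + (2 * X1 - 2 * c * (c0 * c0)) • e00 := by
      rw [hk1, hk2]
      simp only [mul_add, add_mul, mul_sub, sub_mul, smul_mul_assoc, mul_smul_comm, he00, he01, he10, vmv_mul,
        dot_eq hS, hX0, hXsym, ← hX1]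
      module
    rw [← map_smul, this, h3, map_add, map_smul, map_smul, hN0, hN1, smul_zero, add_zero, smul_smul]
  have r3 : (c0 * c0) • ((2 * k : F) • N (a ^ (k - 1) * y * a ^ (k - 1))) = (2 * Y1) • e00 := by
    have : (c0 * c0) • (a ^ (k - 1) * y * a ^ (k - 1)) = (c0 • a ^ (k - 1)) * y * (c0 • a ^ (k - 1)) := by
      simp only [smul_mul_assoc, mul_smul_comm, smul_smul]
    have h3 : (c0 • a ^ (k - 1)) * y * (c0 • a ^ (k - 1)) =
        Y1 • (e10 + e01) + (Y2 - 2 * c * Y1) • e00 := by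
      rw [hk2]
      simp only [mul_add, add_mul, mul_sub, sub_mul, smul_mul_assoc, mul_smul_comm, he00, he01, he10, vmv_mul,
        dot_eq hS, hY0, hYsym, ← hY1, ← hY2]
      module
    rw [smul_comm, ← map_smul, this, h3, map_add, map_smul, map_smul, hN0, hN1, smul_zero, add_zero, smul_smul,
      smul_smul]
    congr 1
    field_simp
  rw [r1, smul_add, r2, r3] at hfin'
  have h4 : (c0 * c0 * (k : F)⁻¹) • e00 = 0 := by
    have : (c0 * c0 * (k : F)⁻¹) • e00 = ((c0 * c0 * (k : F)⁻¹) • e00 + (2 * Y1) • e00) - (2 * Y1) • e00 := by abel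
    rw [this, ← hfin', sub_self]
  rcases smul_eq_zero.mp h4 with h5 | h5
  · exact (mul_ne_zero (mul_ne_zero hc0ne hc0ne) (inv_ne_zero hkF)) h5
  · exact hne h5

end form

end JRB2
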