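import Mathlib

/-!
# Ranks of powers of a nilpotent operator and totally isotropic subspaces
-/

namespace JRB2

open Module

section rank

variable {F : Type*} [Field F] {V : Type*} [AddCommGroup V] [Module F V] [FiniteDimensional F V]

theorem finrank_map_ker {W : Type*} [AddCommGroup W] [Module F W] (f : V →ₗ[F] W) (K : Submodule F V) :
    finrank F (K.map f) + finrank F (LinearMap.ker f ⊓ K : Submodule F V) = finrank F K := by
  have h := LinearMap.finrank_range_add_finrank_ker (f.domRestrict K)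
  rw [LinearMap.range_domRestrict] at h
  have h2 : finrank F (LinearMap.ker (f.domRestrict K)) = finrank F (LinearMap.ker f ⊓ K : Submodule F V) := by
    rw [LinearMap.ker_domRestrict, ← Submodule.finrank_map_subtype_eq K, Submodule.map_comap_subtype, inf_comm]
  rw [← h2]; exact h

/-- rank of `f^j` -/
noncomputable def rk (f : V →ₗ[F] V) (j : ℕ) : ℕ := finrank F (LinearMap.range (f ^ j))

/-- number of Jordan blocks of size `> j` -/
noncomputable def dk (f : V →ₗ[F] V) (j : ℕ) : ℕ :=
  finrank F (LinearMap.ker f ⊓ LinearMap.range (f ^ j) : Submodule F V)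

theorem rk_succ (f : V →ₗ[F] V) (j : ℕ) : rk f (j + 1) + dk f j = rk f j := by
  have h := finrank_map_ker f (LinearMap.range (f ^ j))
  have h2 : (LinearMap.range (f ^ j)).map f = LinearMap.range (f ^ (j + 1)) := by
    rw [pow_succ', Module.End.mul_eq_comp, LinearMap.range_comp]
  rw [h2] at h
  exact h

theorem dk_anti (f : V →ₗ[F] V) (j : ℕ) : dk f (j + 1) ≤ dk f j := by
  apply Submodule.finrank_mono
  apply inf_le_inf_left
  rw [pow_succ, Module.End.mul_eq_comp]
  exact LinearMap.range_comp_le_range _ _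

theorem dk_anti' (f : V →ₗ[F] V) {i j : ℕ} (h : i ≤ j) : dk f j ≤ dk f i := by
  induction j, h using Nat.le_induction with
  | base => exact le_rfl
  | succ j _ ih => exact (dk_anti f j).trans ih

theorem rk_zero (f : V →ₗ[F] V) : rk f 0 = finrank F V := by
  unfold rk
  rw [pow_zero, Module.End.one_eq_id, LinearMap.range_id, finrank_top]

theorem rk_ker (f : V →ₗ[F] V) (j : ℕ) : rk f j + finrank F (LinearMap.ker (f ^ j)) = finrank F V :=
  LinearMap.finrank_range_add_finrank_ker _

theorem rk_eq_zero (f : V →ₗ[F] V) (j : ℕ) (h : f ^ j = 0) : rk f j = 0 := by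
  unfold rk; rw [h, LinearMap.range_zero, finrank_bot]

theorem rk_pos (f : V →ₗ[F] V) (j : ℕ) (h : f ^ j ≠ 0) : 1 ≤ rk f j := by
  unfold rk
  rw [Nat.one_le_iff_ne_zero, Ne, Submodule.finrank_eq_zero, LinearMap.range_eq_bot]
  exact h

/-- the growth of ranks -/
theorem rk_growth (f : V →ₗ[F] V) (m : ℕ) (hm : 3 ≤ m) (h0 : f ^ m = 0) (h1 : f ^ (m - 1) ≠ 0)
    (h3 : 3 ≤ rk f (m - 2)) (i : ℕ) (hi : i ≤ m - 1) :
    rk f (m - 1) + 2 * (m - 1 - i) ≤ rk f i := by
  have hd2 : 2 ≤ dk f (m - 2) := by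
    have e1 := rk_succ f (m - 2)
    have e2 := rk_succ f (m - 1)
    have a1 : m - 2 + 1 = m - 1 := by omega
    have a2 : m - 1 + 1 = m := by omega
    rw [a1] at e1
    rw [a2, rk_eq_zero f m h0] at e2
    have e3 := dk_anti f (m - 2)
    rw [a1] at e3
    have e4 := rk_pos f (m - 1) h1
    omega
  have hd : ∀ j, j ≤ m - 2 → 2 ≤ dk f j := fun j hj => hd2.trans (dk_anti' f hj)
  have key : ∀ t, t ≤ m - 1 → rk f (m - 1) + 2 * t ≤ rk f (m - 1 - t) := by
    intro t
    induction t with
    | zero => intro _; simp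
    | succ t ih =>
      intro ht
      have h4 := ih (by omega)
      have h5 := rk_succ f (m - 1 - (t + 1))
      have h6 : m - 1 - (t + 1) + 1 = m - 1 - t := by omega
      rw [h6] at h5
      have h7 := hd (m - 1 - (t + 1)) (by omega)
      omega
  have h8 := key (m - 1 - i) (by omega)
  have h9 : m - 1 - (m - 1 - i) = i := by omega
  rw [h9] at h8
  exact h8

/-- A self-adjoint nilpotent operator of index `m` whose power `f^(m-2)` has rank at least `3`
(when `m ≥ 3`) has a totally isotropic subspace of dimension at least `m - 1`. -/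
theorem exists_isotropic (B : V → V → F) (f : V →ₗ[F] V) (hB0 : ∀ v, B 0 v = 0)
    (hadj : ∀ u v, B (f u) v = B u (f v)) (m : ℕ) (hm : 2 ≤ m) (h0 : f ^ m = 0) (h1 : f ^ (m - 1) ≠ 0)
    (h3 : 3 ≤ m → 3 ≤ rk f (m - 2)) :
    ∃ W : Submodule F V, (∀ u ∈ W, ∀ v ∈ W, B u v = 0) ∧ m - 1 ≤ finrank F W := by
  have hadjp : ∀ (j : ℕ) u v, B ((f ^ j) u) v = B u ((f ^ j) v) := by
    intro j
    induction j with
    | zero => intro u v; simp
    | succ j ih =>
      intro u v
      rw [pow_succ', Module.End.mul_apply, hadj, ih, ← Module.End.mul_apply (f ^ j) f, ← pow_succ, pow_succ']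
  rcases Nat.even_or_odd m with ⟨s, hs⟩ | ⟨s, hs⟩
  · refine ⟨LinearMap.range (f ^ s), ?_, ?_⟩
    · rintro _ ⟨u, rfl⟩ _ ⟨v, rfl⟩
      rw [← hadjp, ← Module.End.mul_apply (f ^ s) (f ^ s), ← pow_add, ← hs, h0, LinearMap.zero_apply, hB0]
    · change m - 1 ≤ rk f s
      rcases Nat.lt_or_ge m 3 with h | h
      · have : s = m - 1 := by omega
        rw [this]
        have := rk_pos f (m - 1) h1
        omega
      · have h4 := rk_growth f m h h0 h1 (h3 h) s (by omega)
        have h5 := rk_pos f (m - 1) h1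
        omega
  · have hm3 : 3 ≤ m := by omega
    refine ⟨(LinearMap.ker (f ^ (m - 1))).map (f ^ s), ?_, ?_⟩
    · rintro _ ⟨u, hu, rfl⟩ _ ⟨v, _, rfl⟩
      have hu' : (f ^ (m - 1)) u = 0 := hu
      have e : s + s = m - 1 := by omega
      rw [← hadjp, ← Module.End.mul_apply (f ^ s) (f ^ s), ← pow_add, e, hu', hB0]
    · have h4 := finrank_map_ker (f ^ s) (LinearMap.ker (f ^ (m - 1)))
      have h5 : (LinearMap.ker (f ^ s) ⊓ LinearMap.ker (f ^ (m - 1)) : Submodule F V) = LinearMap.ker (f ^ s) := by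
        apply inf_eq_left.2
        intro u hu
        have hu' : (f ^ s) u = 0 := hu
        show (f ^ (m - 1)) u = 0
        have e : m - 1 = s + s := by omega
        rw [e, pow_add, Module.End.mul_apply, hu', map_zero]
      rw [h5] at h4
      have h6 := rk_ker f s
      have h7 := rk_ker f (m - 1)
      have h8 := rk_growth f m hm3 h0 h1 (h3 hm3) s (by omega)
      omega

end rank

end JRB2
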