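import Mathlib
import Pool.Agent.H563R3.Lem
import Pool.Agent.H563R3.Rank

/-!
# Upper bound for the nilpotency index
-/

namespace JRB2

open JRB Matrix Module

set_option linter.unusedSectionVars false

section upper

variable {F : Type*} [Field F] [CharZero F] {n : ℕ} {S : Matrix (Fin n) (Fin n) F}

theorem toLin_pow (a : Matrix (Fin n) (Fin n) F) (j : ℕ) :
    (Matrix.toLin' a) ^ j = Matrix.toLin' (a ^ j) := by
  induction j with
  | zero => rw [pow_zero, pow_zero, Matrix.toLin'_one]; rfl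
  | succ j ih => rw [pow_succ, ih, pow_succ, Matrix.toLin'_mul]; rfl

theorem rank_three (hS : Sᵀ = S) (hu : IsUnit S.det)
    (N : Matrix (Fin n) (Fin n) F →ₗ[F] Matrix (Fin n) (Fin n) F) (hN : IsRB F (jmul F) N)
    (hτ : ∀ y, adjS S (N y) = N y) (m : ℕ) (hm : 3 ≤ m) (h0 : (N 1) ^ m = 0) (h1 : (N 1) ^ (m - 1) ≠ 0) :
    3 ≤ rk (Matrix.toLin' (N 1)) (m - 2) := by
  by_contra hlt
  have hlt' : rk (Matrix.toLin' (N 1)) (m - 2) ≤ 2 := by omega
  obtain ⟨g, hg⟩ := exists_vec _ h1
  set a := N 1 with ha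
  have e1 : m - 2 + 1 = m - 1 := by omega
  have e2 : m - 1 + 1 = m := by omega
  set z := a ^ (m - 1) *ᵥ g with hz
  set z' := a ^ (m - 2) *ᵥ g with hz'
  have haz' : a *ᵥ z' = z := by rw [hz', hz, Matrix.mulVec_mulVec, ← pow_succ', e1]
  have haz : a *ᵥ z = 0 := by rw [hz, Matrix.mulVec_mulVec, ← pow_succ', e2, h0, Matrix.zero_mulVec]
  have hli : LinearIndependent F ![z', z] := by
    rw [LinearIndependent.pair_iff]
    intro s t hst
    have h2 := congrArg (fun v => a *ᵥ v) hst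
    simp only [Matrix.mulVec_add, Matrix.mulVec_smul, haz', haz, smul_zero, add_zero, Matrix.mulVec_zero] at h2
    have hs := (smul_eq_zero.mp h2).resolve_right hg
    rw [hs, zero_smul, zero_add] at hst
    exact ⟨hs, (smul_eq_zero.mp hst).resolve_right hg⟩
  have hle : Submodule.span F (Set.range ![z', z]) ≤ LinearMap.range ((Matrix.toLin' a) ^ (m - 2)) := by
    rw [Submodule.span_le]
    rintro _ ⟨i, rfl⟩
    rw [toLin_pow]
    fin_cases i
    · exact ⟨g, by rw [Matrix.toLin'_apply]; rfl⟩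
    · refine ⟨a *ᵥ g, ?_⟩
      rw [Matrix.toLin'_apply, Matrix.mulVec_mulVec, ← pow_succ, e1]; rfl
  have hfr : finrank F (Submodule.span F (Set.range ![z', z])) = 2 := by
    rw [finrank_span_eq_card hli]; simp
  have heq := Submodule.eq_of_le_of_finrank_le hle (by rw [hfr]; exact hlt')
  apply key_lemma hS hu N hN hτ (m - 1) (by omega) (by rw [e2]; exact h0) g hg
  intro v
  have hv : a ^ (m - 2) *ᵥ v ∈ LinearMap.range ((Matrix.toLin' a) ^ (m - 2)) := by
    rw [toLin_pow]; exact ⟨v, by rw [Matrix.toLin'_apply]⟩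
  rw [← heq] at hv
  have hr : Set.range ![z', z] = {z', z} := by
    rw [Matrix.range_cons, Matrix.range_cons, Matrix.range_empty, Set.union_empty]; rfl
  rw [hr, Submodule.mem_span_pair] at hv
  obtain ⟨p, q, hpq⟩ := hv
  have e3 : m - 1 - 1 = m - 2 := by omega
  exact ⟨p, q, by rw [e3]; exact hpq.symm⟩

/-- **Upper bound.** -/
theorem upper_bound (hn : 3 ≤ n) (hS : Sᵀ = S) (hu : IsUnit S.det) (w : ℕ)
    (hw : ∀ U : Submodule F (Fin n → F), (∀ u ∈ U, ∀ v ∈ U, bf S u v = 0) → finrank F U ≤ w)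
    (R : Herm (adjS S) →ₗ[F] Herm (adjS S)) (hR : IsRB F (hermMul (adjS S) (adjS_mul hu)) R) :
    R ^ (2 * min (w + 1) ((n + 1) / 2)) = 0 := by
  classical
  have hττ : ∀ x, adjS S (adjS S x) = x := adjS_adjS hS hu
  have hM := ext0_RB (adjS S) (adjS_mul hu) hττ R hR
  have hMpow := ext0_pow (adjS S) hττ R
  have hτ : ∀ y, adjS S (ext0 (adjS S) hττ R y) = ext0 (adjS S) hττ R y := fun y => (R (proj (adjS S) hττ y)).2
  set M := ext0 (adjS S) hττ R with hMdef
  have hnil := nilpotent_one M hM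
  have hex : ∃ m, (M 1) ^ m = 0 := hnil
  set m := Nat.find hex with hm
  have hm0 : (M 1) ^ m = 0 := Nat.find_spec hex
  have hmin : ∀ j, j < m → (M 1) ^ j ≠ 0 := fun j hj => Nat.find_min hex hj
  have hmb : m ≤ min (w + 1) ((n + 1) / 2) := by
    rcases Nat.lt_or_ge m 2 with h | h
    · apply le_min <;> omega
    · have h1 : (M 1) ^ (m - 1) ≠ 0 := hmin _ (by omega)
      have h3 : 3 ≤ m → 3 ≤ rk (Matrix.toLin' (M 1)) (m - 2) :=
        fun h3 => rank_three hS hu M hM hτ m h3 hm0 h1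
      have g0 : (Matrix.toLin' (M 1)) ^ m = 0 := by rw [toLin_pow, hm0, map_zero]
      have g1 : (Matrix.toLin' (M 1)) ^ (m - 1) ≠ 0 := by
        rw [toLin_pow]
        intro h4
        exact h1 ((LinearEquiv.map_eq_zero_iff _).1 h4)
      apply le_min
      · obtain ⟨W, hW, hWd⟩ := exists_isotropic (F := F) (bf S) (Matrix.toLin' (M 1)) bf_zero_left
          (fun u v => by rw [Matrix.toLin'_apply, Matrix.toLin'_apply]; exact bf_adj hu (hτ 1) u v)
          m h g0 g1 h3
        have := hw W hW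
        omega
      · rcases Nat.lt_or_ge m 3 with h' | h'
        · omega
        · have h5 := rk_growth _ m h' g0 g1 (h3 h') 0 (by omega)
          rw [rk_zero, Module.finrank_fin_fun] at h5
          have h6 := rk_pos _ (m - 1) g1
          omega
  have hpow : (M 1) ^ (min (w + 1) ((n + 1) / 2)) = 0 := pow_eq_zero_of_le hmb hm0
  have hb := general_bound M hM _ hpow
  ext x : 2
  have h2 := hMpow (2 * min (w + 1) ((n + 1) / 2)) x
  rw [hb] at h2
  rw [← h2]; rfl

end upper

end JRB2
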