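import Mathlib
import Pool.Agent.H563R3.Upper

/-!
# Lower bounds for the nilpotency index
-/

namespace JRB2

open JRB Matrix Module

set_option linter.unusedSectionVars false

section abstract

variable {F : Type*} [Field F] [CharZero F] {n m : ℕ}
  (τ : Matrix (Fin n) (Fin n) F →ₗ[F] Matrix (Fin n) (Fin n) F) (hτ : ∀ x y, τ (x * y) = τ y * τ x)
  (ι : Matrix (Fin m) (Fin m) F →ₗ[F] Matrix (Fin n) (Fin n) F)
  (π : Matrix (Fin n) (Fin n) F →ₗ[F] Matrix (Fin m) (Fin m) F)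
  (hι : ∀ x, τ (ι x) = ι x)

/-- the operator `x ↦ ι (N (π x))` on `H(M_n(F), τ)` -/
def liftOp (N : Matrix (Fin m) (Fin m) F →ₗ[F] Matrix (Fin m) (Fin m) F) : Herm τ →ₗ[F] Herm τ :=
  LinearMap.codRestrict (Herm τ) (ι ∘ₗ N ∘ₗ π ∘ₗ (Herm τ).subtype) (fun X => hι (N (π X.1)))

theorem liftOp_coe (N : Matrix (Fin m) (Fin m) F →ₗ[F] Matrix (Fin m) (Fin m) F) (X : Herm τ) :
    (liftOp τ ι π hι N X).1 = ι (N (π X.1)) := rfl

theorem liftOp_RB (h1 : ∀ x y, jmul F (ι x) (ι y) = ι (jmul F x y))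
    (h2 : ∀ x y, π (jmul F (ι x) y) = jmul F x (π y))
    (N : Matrix (Fin m) (Fin m) F →ₗ[F] Matrix (Fin m) (Fin m) F) (hN : IsRB F (jmul F) N) :
    IsRB F (hermMul τ hτ) (liftOp τ ι π hι N) := by
  intro X Y
  apply Subtype.ext
  rw [hermMul_coe, liftOp_coe, liftOp_coe, liftOp_coe, h1, Submodule.coe_add, hermMul_coe, hermMul_coe,
    liftOp_coe, liftOp_coe, map_add, h2, jmul_comm' X.1, h2, jmul_comm' (N (π Y.1)), ← hN]

theorem liftOp_pow (h3 : ∀ x, π (ι x) = x)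
    (N : Matrix (Fin m) (Fin m) F →ₗ[F] Matrix (Fin m) (Fin m) F) (k : ℕ) (X : Herm τ) :
    π (((liftOp τ ι π hι N) ^ k) X).1 = (N ^ k) (π X.1) := by
  induction k with
  | zero => simp
  | succ k ih => rw [pow_succ', Module.End.mul_apply, liftOp_coe, h3, ih, pow_succ', Module.End.mul_apply]

theorem liftOp_pow_ne (h3 : ∀ x, π (ι x) = x)
    (N : Matrix (Fin m) (Fin m) F →ₗ[F] Matrix (Fin m) (Fin m) F) (k : ℕ) (hk : N ^ k ≠ 0) :
    (liftOp τ ι π hι N) ^ k ≠ 0 := by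
  intro h
  apply hk
  ext P : 1
  have h1 := liftOp_pow τ ι π hι h3 N k ⟨ι P, hι P⟩
  rw [h] at h1
  have h2 : π (⟨ι P, hι P⟩ : Herm τ).1 = P := h3 P
  rw [h2] at h1
  rw [← h1]
  exact map_zero π

end abstract

section hyp

variable {F : Type*} [Field F] [CharZero F] {n m : ℕ} {S : Matrix (Fin n) (Fin n) F}

/-- `x ↦ P x Qᵀ S + Q xᵀ Pᵀ S` -/
def iotaPQ (S : Matrix (Fin n) (Fin n) F) (P Q : Matrix (Fin n) (Fin m) F) :
    Matrix (Fin m) (Fin m) F →ₗ[F] Matrix (Fin n) (Fin n) F where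
  toFun x := P * x * Qᵀ * S + Q * xᵀ * Pᵀ * S
  map_add' x y := by
    simp only [Matrix.transpose_add, Matrix.mul_add, Matrix.add_mul]; abel
  map_smul' c x := by
    simp only [Matrix.transpose_smul, Matrix.mul_smul, Matrix.smul_mul, RingHom.id_apply, smul_add]

/-- `x ↦ Qᵀ S x P` -/
def piPQ (S : Matrix (Fin n) (Fin n) F) (P Q : Matrix (Fin n) (Fin m) F) :
    Matrix (Fin n) (Fin n) F →ₗ[F] Matrix (Fin m) (Fin m) F where
  toFun x := Qᵀ * S * x * P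
  map_add' x y := by simp only [Matrix.mul_add, Matrix.add_mul]
  map_smul' c x := by simp only [Matrix.mul_smul, Matrix.smul_mul, RingHom.id_apply]

theorem iotaPQ_apply (P Q : Matrix (Fin n) (Fin m) F) (x : Matrix (Fin m) (Fin m) F) :
    iotaPQ S P Q x = P * x * Qᵀ * S + Q * xᵀ * Pᵀ * S := rfl

theorem piPQ_apply (P Q : Matrix (Fin n) (Fin m) F) (x : Matrix (Fin n) (Fin n) F) :
    piPQ S P Q x = Qᵀ * S * x * P := rfl

theorem iotaPQ_adj (hS : Sᵀ = S) (hu : IsUnit S.det) (P Q : Matrix (Fin n) (Fin m) F)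
    (x : Matrix (Fin m) (Fin m) F) : adjS S (iotaPQ S P Q x) = iotaPQ S P Q x := by
  rw [adjS_iff hu, iotaPQ_apply]
  simp only [Matrix.transpose_add, Matrix.transpose_mul, Matrix.transpose_transpose, hS, Matrix.add_mul,
    Matrix.mul_add, Matrix.mul_assoc]
  rw [add_comm]

variable {P Q : Matrix (Fin n) (Fin m) F} (hPP : Pᵀ * S * P = 0) (hQQ : Qᵀ * S * Q = 0)
  (hQP : Qᵀ * S * P = 1) (hPQ : Pᵀ * S * Q = 1)

include hPP hQP in
theorem piPQ_iota (x : Matrix (Fin m) (Fin m) F) : piPQ S P Q (iotaPQ S P Q x) = x := by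
  rw [piPQ_apply, iotaPQ_apply]
  have : Qᵀ * S * (P * x * Qᵀ * S + Q * xᵀ * Pᵀ * S) * P =
      (Qᵀ * S * P) * x * (Qᵀ * S * P) + Qᵀ * S * Q * xᵀ * (Pᵀ * S * P) := by
    simp only [Matrix.mul_add, Matrix.add_mul, Matrix.mul_assoc]
  rw [this, hPP, hQP, Matrix.mul_zero, add_zero, Matrix.one_mul, Matrix.mul_one]

include hPP hQP hQQ hPQ in
theorem iotaPQ_mul (x y : Matrix (Fin m) (Fin m) F) :
    jmul F (iotaPQ S P Q x) (iotaPQ S P Q y) = iotaPQ S P Q (jmul F x y) := by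
  have h : ∀ x y : Matrix (Fin m) (Fin m) F, iotaPQ S P Q x * iotaPQ S P Q y =
      P * (x * y) * Qᵀ * S + Q * (xᵀ * yᵀ) * Pᵀ * S := by
    intro x y
    rw [iotaPQ_apply, iotaPQ_apply]
    have : (P * x * Qᵀ * S + Q * xᵀ * Pᵀ * S) * (P * y * Qᵀ * S + Q * yᵀ * Pᵀ * S) =
        P * x * (Qᵀ * S * P) * y * Qᵀ * S + P * x * (Qᵀ * S * Q) * yᵀ * Pᵀ * S +
        (Q * xᵀ * (Pᵀ * S * P) * y * Qᵀ * S + Q * xᵀ * (Pᵀ * S * Q) * yᵀ * Pᵀ * S) := by
      simp only [Matrix.mul_add, Matrix.add_mul, Matrix.mul_assoc]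
      abel
    rw [this, hPP, hQP, hQQ, hPQ]
    simp only [Matrix.mul_zero, Matrix.zero_mul, Matrix.mul_one, zero_add, add_zero, Matrix.mul_assoc]
  unfold jmul
  rw [h, h, map_smul, iotaPQ_apply]
  simp only [Matrix.transpose_add, Matrix.transpose_mul, Matrix.mul_add, Matrix.add_mul]
  congr 1
  abel

include hQP hQQ hPP in
theorem piPQ_mul (x : Matrix (Fin m) (Fin m) F) (y : Matrix (Fin n) (Fin n) F) :
    piPQ S P Q (jmul F (iotaPQ S P Q x) y) = jmul F x (piPQ S P Q y) := by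
  unfold jmul
  rw [map_smul, piPQ_apply, piPQ_apply, iotaPQ_apply]
  congr 1
  have : Qᵀ * S * ((P * x * Qᵀ * S + Q * xᵀ * Pᵀ * S) * y + y * (P * x * Qᵀ * S + Q * xᵀ * Pᵀ * S)) * P =
      (Qᵀ * S * P) * x * (Qᵀ * S * y * P) + (Qᵀ * S * Q) * xᵀ * Pᵀ * S * y * P +
      (Qᵀ * S * y * P * x * (Qᵀ * S * P) + Qᵀ * S * y * Q * xᵀ * (Pᵀ * S * P)) := by
    simp only [Matrix.mul_add, Matrix.add_mul, Matrix.mul_assoc]
  rw [this, hQP, hQQ, hPP]
  simp only [Matrix.mul_zero, Matrix.zero_mul, Matrix.mul_one, Matrix.one_mul, add_zero]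

theorem exists_PQ (hS : Sᵀ = S) (hu : IsUnit S.det) (U : Submodule F (Fin n → F))
    (hU : ∀ u ∈ U, ∀ v ∈ U, bf S u v = 0) (hd : finrank F U = m) :
    ∃ P Q : Matrix (Fin n) (Fin m) F, Pᵀ * S * P = 0 ∧ Qᵀ * S * Q = 0 ∧ Qᵀ * S * P = 1 ∧ Pᵀ * S * Q = 1 := by
  have b : Basis (Fin m) F U := (finBasis F U).reindex (finCongr hd)
  set P : Matrix (Fin n) (Fin m) F := Matrix.of fun i j => (b j : Fin n → F) i with hP
  have hPP : Pᵀ * S * P = 0 := by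
    ext i j
    have := hU _ (b i).2 _ (b j).2
    rw [Matrix.mul_assoc, Matrix.mul_apply, Matrix.zero_apply, ← this, bf, dotProduct]
    refine Finset.sum_congr rfl fun k _ => ?_
    rfl
  have hinj : Function.Injective (Matrix.toLin' (S * P)) := by
    rw [← LinearMap.ker_eq_bot, LinearMap.ker_eq_bot']
    intro c hc
    rw [Matrix.toLin'_apply, ← Matrix.mulVec_mulVec] at hc
    have h1 : P *ᵥ c = 0 := by
      have : S⁻¹ *ᵥ (S *ᵥ (P *ᵥ c)) = P *ᵥ c := by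
        rw [Matrix.mulVec_mulVec, Matrix.nonsing_inv_mul _ hu, Matrix.one_mulVec]
      rw [← this, hc, Matrix.mulVec_zero]
    have h2 : ∑ j, c j • (b j : Fin n → F) = 0 := by
      rw [← h1]
      funext i
      rw [Matrix.mulVec, dotProduct, Finset.sum_apply]
      refine Finset.sum_congr rfl fun j _ => ?_
      rw [Pi.smul_apply, smul_eq_mul, mul_comm]; rfl
    have h3 : ∑ j, c j • b j = 0 := by
      apply Subtype.ext
      rw [Submodule.coe_sum]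
      simpa using h2
    funext j
    exact Fintype.linearIndependent_iff.1 b.linearIndependent c h3 j
  obtain ⟨L, hL⟩ := LinearMap.exists_leftInverse_of_injective _ (LinearMap.ker_eq_bot.2 hinj)
  set Q' : Matrix (Fin n) (Fin m) F := (LinearMap.toMatrix' L)ᵀ with hQ'
  have hQ'P : Q'ᵀ * S * P = 1 := by
    have h1 := congrArg LinearMap.toMatrix' hL
    rw [LinearMap.toMatrix'_comp, LinearMap.toMatrix'_toLin', LinearMap.toMatrix'_id] at h1
    rw [hQ', Matrix.transpose_transpose, Matrix.mul_assoc]; exact h1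
  have hPQ' : Pᵀ * S * Q' = 1 := by
    have h1 := congrArg Matrix.transpose hQ'P
    rw [Matrix.transpose_mul, Matrix.transpose_mul, Matrix.transpose_transpose, hS, Matrix.transpose_one,
      ← Matrix.mul_assoc] at h1
    exact h1
  set X := Q'ᵀ * S * Q' with hX
  have hXT : Xᵀ = X := by
    rw [hX, Matrix.transpose_mul, Matrix.transpose_mul, Matrix.transpose_transpose, hS, Matrix.mul_assoc]
  refine ⟨P, Q' - (2 : F)⁻¹ • (P * X), hPP, ?_, ?_, ?_⟩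
  · have : (Q' - (2 : F)⁻¹ • (P * X))ᵀ * S * (Q' - (2 : F)⁻¹ • (P * X)) =
        Q'ᵀ * S * Q' - (2 : F)⁻¹ • ((Q'ᵀ * S * P) * X) - (2 : F)⁻¹ • (Xᵀ * (Pᵀ * S * Q')) +
        ((2 : F)⁻¹ * (2 : F)⁻¹) • (Xᵀ * (Pᵀ * S * P) * X) := by
      simp only [Matrix.transpose_sub, Matrix.transpose_smul, Matrix.transpose_mul, Matrix.sub_mul,
        Matrix.mul_sub, Matrix.smul_mul, Matrix.mul_smul, Matrix.mul_assoc]
      module
    rw [this, hPP, hQ'P, hPQ', ← hX, hXT, Matrix.one_mul, Matrix.mul_one, Matrix.mul_zero, Matrix.zero_mul,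
      smul_zero, add_zero]
    module
  · have : (Q' - (2 : F)⁻¹ • (P * X))ᵀ * S * P = Q'ᵀ * S * P - (2 : F)⁻¹ • (Xᵀ * (Pᵀ * S * P)) := by
      simp only [Matrix.transpose_sub, Matrix.transpose_smul, Matrix.transpose_mul, Matrix.sub_mul,
        Matrix.smul_mul, Matrix.mul_assoc]
    rw [this, hPP, hQ'P, Matrix.mul_zero, smul_zero, sub_zero]
  · have : Pᵀ * S * (Q' - (2 : F)⁻¹ • (P * X)) = Pᵀ * S * Q' - (2 : F)⁻¹ • ((Pᵀ * S * P) * X) := by
      simp only [Matrix.mul_sub, Matrix.mul_smul, Matrix.mul_assoc]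
    rw [this, hPP, hPQ', Matrix.zero_mul, smul_zero, sub_zero]

/-- **Lower bound** from a totally isotropic subspace. -/
theorem lower_bound (hS : Sᵀ = S) (hu : IsUnit S.det) (w : ℕ) (hw : 1 ≤ w)
    (U : Submodule F (Fin n → F)) (hU : ∀ u ∈ U, ∀ v ∈ U, bf S u v = 0) (hd : finrank F U = w) :
    ∃ R : Herm (adjS S) →ₗ[F] Herm (adjS S), IsRB F (hermMul (adjS S) (adjS_mul hu)) R ∧
      R ^ (2 * w - 2) ≠ 0 := by
  obtain ⟨k, rfl⟩ : ∃ k, w = k + 1 := ⟨w - 1, by omega⟩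
  obtain ⟨P, Q, hPP, hQQ, hQP, hPQ⟩ := exists_PQ hS hu U hU hd
  refine ⟨liftOp (adjS S) (iotaPQ S P Q) (piPQ S P Q) (iotaPQ_adj hS hu P Q) (Nop F k), ?_, ?_⟩
  · exact liftOp_RB _ _ _ _ _ (iotaPQ_mul hPP hQQ hQP hPQ) (piPQ_mul hPP hQQ hQP) _ (Nop_RB k)
  · have e : 2 * (k + 1) - 2 = 2 * k := by omega
    rw [e]
    exact liftOp_pow_ne _ _ _ _ (piPQ_iota hPP hQP) _ _ (Nop_pow_ne k)

end hyp

end JRB2
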