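import Mathlib
import Pool.Agent.H563R3.Lower

/-!
# A nonzero operator with zero square; Witt index over algebraically closed fields
-/

namespace JRB2

open JRB Matrix Module

set_option linter.unusedSectionVars false

section small

variable {F : Type*} [Field F] [CharZero F] {n : ℕ} {S : Matrix (Fin n) (Fin n) F}

theorem exists_aniso (hn : 1 ≤ n) (hS : Sᵀ = S) (hu : IsUnit S.det) : ∃ u, bf S u u ≠ 0 := by
  by_contra h
  push Not at h
  have h2 : ∀ u v, bf S u v = 0 := by
    intro u v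
    have h3 := h (u + v)
    rw [bf_add_left, bf_add_right, bf_add_right, h, h, bf_comm hS v u, zero_add, add_zero, ← two_mul] at h3
    exact (mul_eq_zero.mp h3).resolve_left two_ne_zero
  have h4 := bf_nondeg hu (Pi.single (⟨0, hn⟩ : Fin n) (1 : F)) (fun v => h2 v _)
  have h5 := congrFun h4 ⟨0, hn⟩
  simp at h5

theorem exists_orth (hn : 2 ≤ n) (u : Fin n → F) (hu0 : bf S u u ≠ 0) : ∃ v, v ≠ 0 ∧ bf S u v = 0 := by
  have h1 : ∃ t, t ∉ Submodule.span F {u} := by
    by_contra h
    push Not at h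
    have h2 : (Submodule.span F {u}) = ⊤ := by rw [eq_top_iff]; exact fun t _ => h t
    have h3 := finrank_span_le_card (R := F) ({u} : Set (Fin n → F))
    rw [h2, finrank_top, Module.finrank_fin_fun] at h3
    simp at h3
    omega
  obtain ⟨t, ht⟩ := h1
  refine ⟨t - (bf S u t / bf S u u) • u, ?_, ?_⟩
  · intro h
    apply ht
    rw [Submodule.mem_span_singleton]
    exact ⟨_, (sub_eq_zero.mp h).symm⟩
  · have : t - (bf S u t / bf S u u) • u = t + (-(bf S u t / bf S u u)) • u := by
      rw [neg_smul, sub_eq_add_neg]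
    rw [this, bf_add_right, bf_smul_right]
    field_simp
    ring

/-- `x ↦ ⟨u, x v⟩ u ⟨u, ·⟩` -/
def cornerS (hS : Sᵀ = S) (hu : IsUnit S.det) (u v : Fin n → F) : Herm (adjS S) →ₗ[F] Herm (adjS S) where
  toFun x := ⟨bf S u (x.1 *ᵥ v) • Matrix.vecMulVec u (S *ᵥ u), by
    show adjS S _ = _
    rw [map_smul, adjS_vec hS hu]⟩
  map_add' x y := by
    apply Subtype.ext
    show bf S u ((x.1 + y.1) *ᵥ v) • Matrix.vecMulVec u (S *ᵥ u) = _
    rw [Matrix.add_mulVec, bf_add_right, add_smul]; rfl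
  map_smul' c x := by
    apply Subtype.ext
    show bf S u ((c • x.1) *ᵥ v) • Matrix.vecMulVec u (S *ᵥ u) = _
    rw [Matrix.smul_mulVec, bf_smul_right, mul_smul]; rfl

theorem cornerS_coe (hS : Sᵀ = S) (hu : IsUnit S.det) (u v : Fin n → F) (x : Herm (adjS S)) :
    (cornerS hS hu u v x).1 = bf S u (x.1 *ᵥ v) • Matrix.vecMulVec u (S *ᵥ u) := rfl

theorem corner_aux (hS : Sᵀ = S) (hu : IsUnit S.det) (u v : Fin n → F) (huv : bf S u v = 0)
    (y : Matrix (Fin n) (Fin n) F) :
    bf S u (jmul F (Matrix.vecMulVec u (S *ᵥ u)) y *ᵥ v) = (2 : F)⁻¹ * (bf S u u * bf S u (y *ᵥ v)) := by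
  unfold jmul
  rw [Matrix.smul_mulVec, Matrix.add_mulVec, ← Matrix.mulVec_mulVec, ← Matrix.mulVec_mulVec, vmv_mulVec, vmv_mulVec,
    dot_eq hS, dot_eq hS, huv, zero_smul, Matrix.mulVec_zero, add_zero, bf_smul_right, bf_smul_right]
  ring

theorem cornerS_RB (hS : Sᵀ = S) (hu : IsUnit S.det) (u v : Fin n → F) (huv : bf S u v = 0) :
    IsRB F (hermMul (adjS S) (adjS_mul hu)) (cornerS hS hu u v) := by
  intro x y
  apply Subtype.ext
  rw [hermMul_coe, cornerS_coe, cornerS_coe, cornerS_coe, Submodule.coe_add, hermMul_coe, hermMul_coe,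
    cornerS_coe, cornerS_coe, Matrix.add_mulVec, bf_add_right, smul_jmul, smul_jmul, jmul_smul, jmul_comm' x.1, 
    smul_jmul, Matrix.smul_mulVec, Matrix.smul_mulVec, bf_smul_right, bf_smul_right, corner_aux hS hu u v huv,
    corner_aux hS hu u v huv]
  have e : jmul F (Matrix.vecMulVec u (S *ᵥ u)) (Matrix.vecMulVec u (S *ᵥ u)) =
      bf S u u • Matrix.vecMulVec u (S *ᵥ u) := by
    rw [jmul_of_commute rfl, Matrix.vecMulVec_mul_vecMulVec, Matrix.vecMulVec_smul, dot_eq hS]
  rw [e, smul_smul, smul_smul]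
  congr 1
  have h2 : (2 : F) ≠ 0 := two_ne_zero
  field_simp
  ring

theorem cornerS_ne (hS : Sᵀ = S) (hu : IsUnit S.det) (u v : Fin n → F) (huu : bf S u u ≠ 0) (hv : v ≠ 0)
    (huv : bf S u v = 0) : cornerS hS hu u v ≠ 0 := by
  intro h
  obtain ⟨t, ht⟩ : ∃ t, bf S t v ≠ 0 := by
    by_contra h1
    push Not at h1
    exact hv (bf_nondeg hu v h1)
  have hx : adjS S (Matrix.vecMulVec (u + t) (S *ᵥ (u + t)) - Matrix.vecMulVec u (S *ᵥ u) -
      Matrix.vecMulVec t (S *ᵥ t)) = Matrix.vecMulVec (u + t) (S *ᵥ (u + t)) - Matrix.vecMulVec u (S *ᵥ u) -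
      Matrix.vecMulVec t (S *ᵥ t) := by
    rw [map_sub, map_sub, adjS_vec hS hu, adjS_vec hS hu, adjS_vec hS hu]
  have h1 := cornerS_coe hS hu u v ⟨_, hx⟩
  rw [h] at h1
  have h2 : (bf S u ((Matrix.vecMulVec (u + t) (S *ᵥ (u + t)) - Matrix.vecMulVec u (S *ᵥ u) -
      Matrix.vecMulVec t (S *ᵥ t)) *ᵥ v)) = bf S u u * bf S t v := by
    rw [Matrix.sub_mulVec, Matrix.sub_mulVec, vmv_mulVec, vmv_mulVec, vmv_mulVec, dot_eq hS, dot_eq hS,
      dot_eq hS, bf_add_left, huv, zero_add, zero_smul, sub_zero]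
    have : bf S t v • (u + t) - bf S t v • t = bf S t v • u := by rw [smul_add]; abel
    rw [this, bf_smul_right, mul_comm]
  rw [h2] at h1
  have h3 : Matrix.vecMulVec u (S *ᵥ u) ≠ 0 := by
    intro h4
    have h5 := congrArg (fun M => M *ᵥ u) h4
    simp only [vmv_mulVec, dot_eq hS, Matrix.zero_mulVec] at h5
    rcases smul_eq_zero.mp h5 with h6 | h6
    · exact huu h6
    · rw [h6, bf_zero_left] at huu; exact huu rfl
  have h4 : (bf S u u * bf S t v) • Matrix.vecMulVec u (S *ᵥ u) = 0 := h1.symm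
  rcases smul_eq_zero.mp h4 with h5 | h5
  · exact mul_ne_zero huu ht h5
  · exact h3 h5

theorem exists_nonzero (hn : 2 ≤ n) (hS : Sᵀ = S) (hu : IsUnit S.det) :
    ∃ R : Herm (adjS S) →ₗ[F] Herm (adjS S), IsRB F (hermMul (adjS S) (adjS_mul hu)) R ∧ R ≠ 0 := by
  obtain ⟨u, huu⟩ := exists_aniso (by omega) hS hu
  obtain ⟨v, hv, huv⟩ := exists_orth hn u huu
  exact ⟨cornerS hS hu u v, cornerS_RB hS hu u v huv, cornerS_ne hS hu u v huu hv huv⟩

end small

section witt

variable {F : Type*} [Field F] [CharZero F] {n : ℕ} {S : Matrix (Fin n) (Fin n) F}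

/-- Over an algebraically closed field, a maximal totally isotropic subspace has dimension at least
`n / 2`. -/
theorem witt_closed [IsAlgClosed F] (hS : Sᵀ = S) (w : ℕ)
    (hw : IsGreatest {d | ∃ U : Submodule F (Fin n → F), (∀ u ∈ U, ∀ v ∈ U, bf S u v = 0) ∧ finrank F U = d} w) :
    n / 2 ≤ w := by
  by_contra hlt
  obtain ⟨⟨U, hU, hd⟩, hmax⟩ := hw
  -- the orthogonal of `U`
  let φ : (Fin n → F) →ₗ[F] (U →ₗ[F] F) :=
    { toFun := fun v =>
        { toFun := fun u => bf S u.1 v
          map_add' := fun a b => bf_add_left _ _ _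
          map_smul' := fun c a => bf_smul_left _ _ _ }
      map_add' := fun a b => by ext u; exact bf_add_right _ _ _
      map_smul' := fun c a => by ext u; exact bf_smul_right _ _ _ }
  have hφ : ∀ v, v ∈ LinearMap.ker φ ↔ ∀ u ∈ U, bf S u v = 0 := by
    intro v
    rw [LinearMap.mem_ker]
    constructor
    · intro h u hu
      exact congrArg (fun f : U →ₗ[F] F => f ⟨u, hu⟩) h
    · intro h; ext u; exact h u.1 u.2
  have h1 := LinearMap.finrank_range_add_finrank_ker φ
  have h2 : finrank F (LinearMap.range φ) ≤ w := by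
    refine (Submodule.finrank_le _).trans ?_
    rw [Module.finrank_linearMap, hd, Module.finrank_self, mul_one]
  rw [Module.finrank_fin_fun] at h1
  have hUle : U ≤ LinearMap.ker φ := fun v hv => (hφ v).2 (fun u hu => hU u hu v hv)
  -- two more dimensions
  have hx : ∃ x ∈ LinearMap.ker φ, x ∉ U := by
    by_contra h
    push Not at h
    have := Submodule.finrank_mono (show LinearMap.ker φ ≤ U from h)
    omega
  obtain ⟨x, hxK, hxU⟩ := hx
  have hy : ∃ y ∈ LinearMap.ker φ, y ∉ U ⊔ Submodule.span F {x} := by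
    by_contra h
    push Not at h
    have h3 := Submodule.finrank_mono (show LinearMap.ker φ ≤ U ⊔ Submodule.span F {x} from h)
    have h4 := Submodule.finrank_add_le_finrank_add_finrank U (Submodule.span F {x})
    have h5 := finrank_span_le_card (R := F) ({x} : Set (Fin n → F))
    simp at h5
    omega
  obtain ⟨y, hyK, hyU⟩ := hy
  -- an isotropic vector
  have hiso : ∃ t ∈ LinearMap.ker φ, t ∉ U ∧ bf S t t = 0 := by
    by_cases h0 : bf S y y = 0
    · exact ⟨y, hyK, fun h => hyU (Submodule.mem_sup_left h), h0⟩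
    · obtain ⟨s, hs⟩ := IsAlgClosed.exists_pow_nat_eq (discrim (bf S y y) (2 * bf S x y) (bf S x x)) (n := 2) (by norm_num)
      obtain ⟨c, hc⟩ := exists_quadratic_eq_zero h0 ⟨s, by rw [← hs, sq]⟩
      refine ⟨x + c • y, Submodule.add_mem _ hxK (Submodule.smul_mem _ _ hyK), ?_, ?_⟩
      · intro h
        by_cases hc0 : c = 0
        · apply hxU; rw [hc0, zero_smul, add_zero] at h; exact h
        · apply hyU
          have e : y = c⁻¹ • (x + c • y) + (-c⁻¹) • x := by
            rw [smul_add, smul_smul, inv_mul_cancel₀ hc0, one_smul, neg_smul]; abel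
          rw [e]
          exact Submodule.add_mem_sup (Submodule.smul_mem _ _ h)
            (Submodule.smul_mem _ _ (Submodule.mem_span_singleton_self x))
      · rw [bf_add_left, bf_add_right, bf_add_right, bf_smul_left, bf_smul_left, bf_smul_right, bf_smul_right,
          bf_comm hS y x]
        linear_combination hc
  obtain ⟨t, htK, htU, htt⟩ := hiso
  have h6 : w + 1 ∈ {d | ∃ U : Submodule F (Fin n → F), (∀ u ∈ U, ∀ v ∈ U, bf S u v = 0) ∧ finrank F U = d} := by
    refine ⟨U ⊔ Submodule.span F {t}, ?_, ?_⟩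
    · intro a ha b hb
      obtain ⟨a1, ha1, a2, ha2, rfl⟩ := Submodule.mem_sup.1 ha
      obtain ⟨b1, hb1, b2, hb2, rfl⟩ := Submodule.mem_sup.1 hb
      obtain ⟨p, rfl⟩ := Submodule.mem_span_singleton.1 ha2
      obtain ⟨q, rfl⟩ := Submodule.mem_span_singleton.1 hb2
      rw [bf_add_left, bf_add_right, bf_add_right, bf_smul_left, bf_smul_left, bf_smul_right, bf_smul_right,
        hU _ ha1 _ hb1, (hφ t).1 htK _ ha1, bf_comm hS t b1, (hφ t).1 htK _ hb1, htt]
      ring
    · have hdisj : Disjoint U (Submodule.span F {t}) := by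
        rw [Submodule.disjoint_span_singleton']
        · exact htU
        · intro h; apply htU; rw [h]; exact zero_mem _
      have h7 := Submodule.finrank_sup_add_finrank_inf_eq U (Submodule.span F {t})
      rw [hdisj.eq_bot, finrank_bot, add_zero, hd, finrank_span_singleton] at h7
      · exact h7
      · intro h; apply htU; rw [h]; exact zero_mem _
  have := hmax h6
  omega

end witt

end JRB2
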